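import Pool.Agent.Helper76.FT.GoalsC

/-! # MP_39e2b7_an, packet FT-EXIST: existence of strict tori over a rectangle -/

set_option autoImplicit false

namespace Pool.Agent.Helper49.FT

open Complex Set Filter Topology
open Pool.Agent.Helper76.FT

theorem rec_convex (c1 c2 η : ℝ) : Convex ℝ (Rec c1 c2 η) := by
  intro x hx y hy a b ha hb hab
  obtain ⟨hx1, hx2, hx3, hx4⟩ := hx
  obtain ⟨hy1, hy2, hy3, hy4⟩ := hy
  have hb' : b = 1 - a := by linarith
  subst hb'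
  simp only [Rec, Set.mem_ofPred_eq, Complex.add_re, Complex.add_im, Complex.smul_re,
    Complex.smul_im, smul_eq_mul]
  rcases eq_or_lt_of_le ha with h0 | h0
  · subst h0
    simp only [zero_mul, sub_zero, one_mul, zero_add]
    exact ⟨hy1, hy2, hy3, hy4⟩
  · have e1 : 0 < a * (x.re - c1) := mul_pos h0 (by linarith)
    have e2 : 0 < a * (c2 - x.re) := mul_pos h0 (by linarith)
    have e3 : 0 < a * x.im := mul_pos h0 hx3
    have e4 : 0 < a * (η - x.im) := mul_pos h0 (by linarith)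
    have f1 : 0 ≤ (1 - a) * (y.re - c1) := mul_nonneg hb (by linarith)
    have f2 : 0 ≤ (1 - a) * (c2 - y.re) := mul_nonneg hb (by linarith)
    have f3 : 0 ≤ (1 - a) * y.im := mul_nonneg hb hy3.le
    have f4 : 0 ≤ (1 - a) * (η - y.im) := mul_nonneg hb (by linarith)
    refine ⟨?_, ?_, ?_, ?_⟩ <;> nlinarith

theorem ft_exist : GMn → GOpen → GStart → GRegion → GPos → GComp → GExist := by
  intro hMn hOpen hStart hRegion hPos hComp S hS
  obtain ⟨_, hmono, hm0⟩ := hMn S hS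
  obtain ⟨d1, hd1, hOp⟩ := hOpen S hS
  obtain ⟨d2, hd2, hRe⟩ := hRegion S hS
  obtain ⟨d3, hd3, hPo⟩ := hPos S hS
  obtain ⟨d4, hd4, hCo⟩ := hComp S hS
  have hr : 0 < S.r := hS.hr
  refine ⟨min (min d1 d2) (min (min d3 d4) (S.r / 2)), by positivity, ?_⟩
  intro δ hδ hδ' Y₁ hY₁ Y₂ hY₂ hY₁0 hY₂0
  have hδ1 : δ ≤ d1 := hδ'.trans ((min_le_left _ _).trans (min_le_left _ _))
  have hδ2 : δ ≤ d2 := hδ'.trans ((min_le_left _ _).trans (min_le_right _ _))
  have hδ3 : δ ≤ d3 := hδ'.trans ((min_le_right _ _).trans ((min_le_left _ _).trans (min_le_left _ _)))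
  have hδ4 : δ ≤ d4 := hδ'.trans ((min_le_right _ _).trans ((min_le_left _ _).trans (min_le_right _ _)))
  have hδ5 : δ < S.r := by
    have : δ ≤ S.r / 2 := hδ'.trans ((min_le_right _ _).trans (min_le_right _ _))
    linarith
  obtain ⟨η, hη, hReg⟩ := hRe δ hδ hδ2 Y₁ hY₁ Y₂ hY₂ (hY₁0.trans hY₂0)
  refine ⟨η, hη, ?_⟩
  have ha : S.a < 0 := hS.ha
  have hb : 0 < S.b := hS.hb
  have h0mem : (0:ℝ) ∈ Icc S.a S.b := ⟨ha.le, hb.le⟩
  have hmY₁ : S.mn Y₁ < 0 := by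
    have := hmono ⟨hY₁.1.le, hY₁.2.le⟩ h0mem hY₁0
    rwa [hm0] at this
  have hmY₂ : 0 < S.mn Y₂ := by
    have := hmono h0mem ⟨hY₂.1.le, hY₂.2.le⟩ hY₂0
    rwa [hm0] at this
  -- the set of good classes
  let A : Set ℂ := {c | ∃ (w : ℂ → ℝ → ℂ) (ρ : ℝ), STor S δ w ρ c}
  have hAopen : IsOpen A := by
    rw [Metric.isOpen_iff]
    rintro c ⟨w, ρ, hw⟩
    obtain ⟨ε, hε, h⟩ := hOp δ ρ w c hδ1 hw
    refine ⟨ε, hε, ?_⟩
    intro c' hc'
    have : ‖c' - c‖ < ε := by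
      rw [← dist_eq_norm]; exact hc'
    exact h c' this
  have hpre : IsPreconnected (Rec (S.mn Y₁) (S.mn Y₂) η) := (rec_convex _ _ _).isPreconnected
  have hne : (Rec (S.mn Y₁) (S.mn Y₂) η ∩ A).Nonempty := by
    obtain ⟨ε, w, ρ, hε, hεη, hw⟩ := hStart S hS δ η hδ hδ5 hη
    refine ⟨(ε : ℂ) * I, ?_, w, ρ, hw⟩
    show _ ∧ _
    simp
    exact ⟨hmY₁, hmY₂, hε, hεη⟩
  have hcl : ∀ c ∈ Rec (S.mn Y₁) (S.mn Y₂) η, c ∈ closure A → c ∈ A := by
    intro c' hc' hcA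
    obtain ⟨c, hcmem, hclim⟩ := mem_closure_iff_seq_limit.1 hcA
    have hc'im : 0 < c'.im := hc'.2.2.1
    have hev : ∀ᶠ k in atTop, c'.im / 2 ≤ (c k).im := by
      have : Tendsto (fun k => (c k).im) atTop (𝓝 c'.im) :=
        (Complex.continuous_im.tendsto c').comp hclim
      exact this.eventually (eventually_ge_nhds (by linarith))
    obtain ⟨N, hN⟩ := eventually_atTop.1 hev
    choose w ρ hw using hcmem
    obtain ⟨h, hh, hlow⟩ := hPo (c'.im / 2) δ (by linarith) hδ3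
    obtain ⟨w', ρ', φ, _, hT, _, _⟩ := hCo δ h (fun k => ρ (k + N)) (fun k => w (k + N))
      (fun k => c (k + N)) c' hδ4 hh (fun k => (hw (k + N)).1)
      (fun k x t ht => hlow _ _ _ (hw (k + N)).1 (hN _ (by omega)) x t ht)
      ((tendsto_add_atTop_iff_nat N).2 hclim)
    exact ⟨w', ρ', hReg ρ' w' c' hT hc'.2.2.2.le hc'.1.le hc'.2.1.le⟩
  have hsub : Rec (S.mn Y₁) (S.mn Y₂) η ⊆ A := by
    apply hpre.subset_of_closure_inter_subset hAopen hne
    rintro c ⟨h1, h2⟩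
    exact hcl c h2 h1
  intro c hc
  exact hsub hc

end Pool.Agent.Helper49.FT
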